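import Mathlib
import Pool.Agent.H71.DN.Defs

/-!
Explicit regular graphs made of edge-disjoint triangles, without 4-cycles between two layers
(for the regularisation in MP_b8729f_co, theorem LS). `I P = Fin 3 × ZMod P × ZMod P`; the triangles are
`(0, a, b)`, `(1, a + t, b + a t)`, `(2, a + 2 t, b + 3 a t)` for `a b : ZMod P`, `t < k`.
-/

set_option autoImplicit false

namespace Pool.Agent.H84.RG

open Finset Classical
open Pool.Agent.H71.DN

/-- The vertex set. -/
abbrev I (P : ℕ) : Type := Fin 3 × ZMod P × ZMod P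

/-- The index set of the triangles. -/
abbrev Th (P k : ℕ) : Type := ZMod P × ZMod P × Fin k

/-- The coefficients. -/
def kap (i : Fin 3) : ℕ := if i = 0 then 0 else if i = 1 then 1 else 3

/-- The vertex in layer `i` of the triangle `x`. -/
def pt (P k : ℕ) (i : Fin 3) (x : Th P k) : I P :=
  (i, x.1 + ((i : ℕ) : ZMod P) * ((x.2.2 : ℕ) : ZMod P),
    x.2.1 + ((kap i : ℕ) : ZMod P) * x.1 * ((x.2.2 : ℕ) : ZMod P))

/-- The triangle with parameter `t` through `x`. -/
def tr (P k : ℕ) (x : I P) (t : Fin k) : Th P k :=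
  (x.2.1 - ((x.1 : ℕ) : ZMod P) * ((t : ℕ) : ZMod P),
    x.2.2 - ((kap x.1 : ℕ) : ZMod P) * (x.2.1 - ((x.1 : ℕ) : ZMod P) * ((t : ℕ) : ZMod P)) *
      ((t : ℕ) : ZMod P), t)

theorem pt_tr (P k : ℕ) (x : I P) (t : Fin k) : pt P k x.1 (tr P k x t) = x := by
  obtain ⟨i, a, b⟩ := x
  simp only [pt, tr]
  refine Prod.ext rfl (Prod.ext ?_ ?_)
  · simp
  · simp

theorem tr_of_pt (P k : ℕ) (i : Fin 3) (τ : Th P k) : tr P k (pt P k i τ) τ.2.2 = τ := by
  obtain ⟨a, b, t⟩ := τ
  simp only [pt, tr]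
  refine Prod.ext ?_ (Prod.ext ?_ rfl)
  · simp
  · simp

/-- The graph: the union of the triangles. -/
def H (P k : ℕ) : SimpleGraph (I P) where
  Adj x y := x.1 ≠ y.1 ∧ ∃ τ : Th P k, pt P k x.1 τ = x ∧ pt P k y.1 τ = y
  symm := ⟨fun _ _ h => ⟨h.1.symm, h.2.imp fun _ h' => ⟨h'.2, h'.1⟩⟩⟩
  loopless := ⟨fun _ h => h.1 rfl⟩

variable {P k : ℕ}

theorem H_iff (x y : I P) : (H P k).Adj x y ↔ x.1 ≠ y.1 ∧ ∃ t : Fin k, pt P k y.1 (tr P k x t) = y := by
  constructor
  · rintro ⟨h1, τ, h2, h3⟩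
    refine ⟨h1, τ.2.2, ?_⟩
    have h4 := tr_of_pt P k x.1 τ
    rw [h2] at h4
    rw [h4, h3]
  · rintro ⟨h1, t, h2⟩
    exact ⟨h1, tr P k x t, pt_tr P k x t, h2⟩

/-- The number of triangles through a vertex is `k`. -/
theorem card_thr [NeZero P] (x : I P) :
    ((univ : Finset (Th P k × Fin 3)).filter fun y => pt P k y.2 y.1 = x).card = k := by
  have h : ((univ : Finset (Th P k × Fin 3)).filter fun y => pt P k y.2 y.1 = x) =
      (univ : Finset (Fin k)).image fun t => (tr P k x t, x.1) := by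
    ext ⟨τ, i⟩
    simp only [mem_filter, mem_univ, true_and, mem_image]
    constructor
    · intro h1
      refine ⟨τ.2.2, ?_⟩
      have h2 := tr_of_pt P k i τ
      rw [h1] at h2
      rw [h2]
      exact Prod.ext rfl (by rw [← h1]; rfl)
    · rintro ⟨t, h1⟩
      rw [Prod.mk.injEq] at h1
      rw [← h1.1, ← h1.2]
      exact pt_tr P k x t
  rw [h, card_image_of_injective, card_univ, Fintype.card_fin]
  intro t t' htt
  have h1 := congrArg (fun y : Th P k × Fin 3 => y.1.2.2) htt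
  exact h1

theorem sum_al [NeZero P] (A : Finset (I P)) :
    ∑ τ : Th P k, (univ.filter fun i => pt P k i τ ∈ A).card = k * A.card := by
  have h1 : ∑ τ : Th P k, (univ.filter fun i => pt P k i τ ∈ A).card =
      ((univ : Finset (Th P k × Fin 3)).filter fun y => pt P k y.2 y.1 ∈ A).card := by
    simp only [card_filter]
    exact (Fintype.sum_prod_type' (f := fun (τ : Th P k) (i : Fin 3) => if pt P k i τ ∈ A then 1 else 0)).symm
  have h2 : ∀ x ∈ A, (((univ : Finset (Th P k × Fin 3)).filter fun y => pt P k y.2 y.1 ∈ A).filter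
      fun y => pt P k y.2 y.1 = x).card = k := by
    intro x hx
    refine Eq.trans ?_ (card_thr (P := P) (k := k) x)
    rw [filter_filter]
    refine congrArg card (filter_congr fun y _ => ?_)
    constructor
    · exact fun h => h.2
    · exact fun h => ⟨h ▸ hx, h⟩
  rw [h1, card_eq_sum_card_fiberwise (f := fun y : Th P k × Fin 3 => pt P k y.2 y.1) (t := A)]
  · rw [sum_congr rfl h2, sum_const, smul_eq_mul, mul_comm]
  · intro y hy
    exact (mem_filter.1 (mem_coe.1 hy)).2

theorem hb [NeZero P] (A B : Finset (I P)) (hAB : Disjoint A B) :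
    3 * ee (H P k) A B ≤ 2 * (k * (A.card + B.card)) := by
  have h1 : ee (H P k) A B ≤ ∑ τ : Th P k, (univ.filter fun i => pt P k i τ ∈ A).card *
      (univ.filter fun i => pt P k i τ ∈ B).card := by
    unfold ee
    have e : ∑ τ : Th P k, (univ.filter fun i => pt P k i τ ∈ A).card *
      (univ.filter fun i => pt P k i τ ∈ B).card =
      ((univ : Finset (Th P k)).sigma fun τ => (univ.filter fun i => pt P k i τ ∈ A) ×ˢ
        (univ.filter fun i => pt P k i τ ∈ B)).card := by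
      rw [card_sigma]
      exact sum_congr rfl fun τ _ => (card_product _ _).symm
    rw [e]
    refine le_trans (card_le_card ?_) (card_image_le (f := fun z : (_ : Th P k) × (Fin 3 × Fin 3) =>
      (pt P k z.2.1 z.1, pt P k z.2.2 z.1)))
    intro x hx
    rw [mem_filter, mem_product] at hx
    obtain ⟨⟨hA, hB⟩, -, τ, h2, h3⟩ := hx
    rw [mem_image]
    refine ⟨⟨τ, (x.1.1, x.2.1)⟩, ?_, ?_⟩
    · rw [mem_sigma, mem_product, mem_filter, mem_filter]
      refine ⟨mem_univ _, ⟨mem_univ _, ?_⟩, ⟨mem_univ _, ?_⟩⟩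
      · show pt P k x.1.1 τ ∈ A
        rw [h2]; exact hA
      · show pt P k x.2.1 τ ∈ B
        rw [h3]; exact hB
    · exact Prod.ext h2 h3
  have h2 : ∀ τ : Th P k, 3 * ((univ.filter fun i => pt P k i τ ∈ A).card *
      (univ.filter fun i => pt P k i τ ∈ B).card) ≤
      2 * ((univ.filter fun i => pt P k i τ ∈ A).card + (univ.filter fun i => pt P k i τ ∈ B).card) := by
    intro τ
    have h3 : (univ.filter fun i => pt P k i τ ∈ A).card + (univ.filter fun i => pt P k i τ ∈ B).card ≤ 3 := by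
      rw [← card_union_of_disjoint]
      · exact (card_le_univ _).trans (by simp)
      · rw [disjoint_left]
        intro i hi hi'
        exact (disjoint_left.1 hAB) (mem_filter.1 hi).2 (mem_filter.1 hi').2
    generalize (univ.filter fun i => pt P k i τ ∈ A).card = α at *
    generalize (univ.filter fun i => pt P k i τ ∈ B).card = β at *
    have ha : α ≤ 3 := by omega
    interval_cases α
    · simp
    · omega
    · omega
    · omega
  calc 3 * ee (H P k) A B ≤ 3 * ∑ τ : Th P k, (univ.filter fun i => pt P k i τ ∈ A).card *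
      (univ.filter fun i => pt P k i τ ∈ B).card := Nat.mul_le_mul_left 3 h1
    _ = ∑ τ : Th P k, 3 * ((univ.filter fun i => pt P k i τ ∈ A).card *
      (univ.filter fun i => pt P k i τ ∈ B).card) := mul_sum _ _ _
    _ ≤ ∑ τ : Th P k, 2 * ((univ.filter fun i => pt P k i τ ∈ A).card +
      (univ.filter fun i => pt P k i τ ∈ B).card) := sum_le_sum fun τ _ => h2 τ
    _ = 2 * (k * (A.card + B.card)) := by
      rw [← mul_sum, sum_add_distrib, sum_al, sum_al]
      ring

/-- differences of small naturals are nonzero modulo `P` -/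
theorem cast_ne {a b : ℕ} (ha : a < P) (hb : b < P) (h : a ≠ b) : ((a : ℕ) : ZMod P) ≠ (b : ℕ) := by
  intro hc
  rw [ZMod.natCast_eq_natCast_iff'] at hc
  rw [Nat.mod_eq_of_lt ha, Nat.mod_eq_of_lt hb] at hc
  exact h hc

theorem dgH [Fact P.Prime] (h5 : 5 ≤ P) (hk : k ≤ P) (x : I P) : dg (H P k) x = 2 * k := by
  have h : (univ.filter fun y => (H P k).Adj x y) =
      ((univ.erase x.1) ×ˢ (univ : Finset (Fin k))).image fun z => pt P k z.1 (tr P k x z.2) := by
    ext y
    simp only [mem_filter, mem_univ, true_and, mem_image, mem_product, mem_erase, and_true]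
    rw [H_iff]
    constructor
    · rintro ⟨h1, t, h2⟩
      exact ⟨(y.1, t), h1.symm, h2⟩
    · rintro ⟨⟨j, t⟩, h1, h2⟩
      have h3 : y.1 = j := by rw [← h2]; rfl
      refine ⟨?_, t, ?_⟩
      · rw [h3]; exact fun hh => h1 hh.symm
      · rw [h3]; exact h2
  unfold dg
  rw [h, card_image_of_injOn]
  · rw [card_product, card_erase_of_mem (mem_univ _)]
    simp
  · rintro ⟨j, t⟩ hz ⟨j', t'⟩ hz' he
    have hj : j ≠ x.1 := by
      have := (mem_product.1 (mem_coe.1 hz)).1
      exact (mem_erase.1 this).1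
    have e1 : j = j' := congrArg (fun y : I P => y.1) he
    subst e1
    have e2 := congrArg (fun y : I P => y.2.1) he
    simp only [pt, tr] at e2
    have e3 : (((j : ℕ) : ZMod P) - ((x.1 : ℕ) : ZMod P)) * (((t : ℕ) : ZMod P) - ((t' : ℕ) : ZMod P)) = 0 := by
      linear_combination e2
    have h0 : ((j : ℕ) : ZMod P) ≠ ((x.1 : ℕ) : ZMod P) :=
      cast_ne (by have := j.2; omega) (by have := x.1.2; omega) (fun hh => hj (Fin.ext hh))
    rcases mul_eq_zero.1 e3 with h4 | h4
    · exact absurd (sub_eq_zero.1 h4) h0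
    · have h6 : (t : ℕ) = t' := by
        by_contra hne
        exact cast_ne (P := P) (by have := t.2; omega) (by have := t'.2; omega) hne (sub_eq_zero.1 h4)
      rw [Fin.ext h6]

/-- the equation of the adjacency between two layers -/
theorem adj_eq {x y : I P} (h : (H P k).Adj x y) :
    (((y.1 : ℕ) : ZMod P) - ((x.1 : ℕ) : ZMod P)) ^ 2 * (y.2.2 - x.2.2) =
      (((kap y.1 : ℕ) : ZMod P) - ((kap x.1 : ℕ) : ZMod P)) *
        ((((y.1 : ℕ) : ZMod P) * x.2.1 - ((x.1 : ℕ) : ZMod P) * y.2.1) * (y.2.1 - x.2.1)) := by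
  obtain ⟨-, τ, h2, h3⟩ := h
  obtain ⟨a, b, t⟩ := τ
  have e1 : x.2.1 = a + ((x.1 : ℕ) : ZMod P) * ((t : ℕ) : ZMod P) :=
    (congrArg (fun y : I P => y.2.1) h2).symm
  have e2 : x.2.2 = b + ((kap x.1 : ℕ) : ZMod P) * a * ((t : ℕ) : ZMod P) :=
    (congrArg (fun y : I P => y.2.2) h2).symm
  have e3 : y.2.1 = a + ((y.1 : ℕ) : ZMod P) * ((t : ℕ) : ZMod P) :=
    (congrArg (fun y : I P => y.2.1) h3).symm
  have e4 : y.2.2 = b + ((kap y.1 : ℕ) : ZMod P) * a * ((t : ℕ) : ZMod P) :=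
    (congrArg (fun y : I P => y.2.2) h3).symm
  rw [e1, e2, e3, e4]
  ring

theorem c4 [Fact P.Prime] (h5 : 5 ≤ P) (i : Fin 3) {y y' : I P} (hl : y.1 = y'.1) (hy : y ≠ y') :
    (univ.filter fun x : I P => x.1 = i ∧ (H P k).Adj x y ∧ (H P k).Adj x y').card ≤ 1 := by
  rw [card_le_one]
  rintro ⟨i1, a, b⟩ hx ⟨i2, a', b'⟩ hx'
  obtain ⟨-, rfl, h1, h2⟩ := mem_filter.1 hx
  obtain ⟨-, h0, h3, h4⟩ := mem_filter.1 hx'
  simp only at h0
  subst h0
  obtain ⟨j, c, d⟩ := y
  obtain ⟨j', c', d'⟩ := y'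
  simp only at hl
  subst hl
  have hij : i2 ≠ j := h1.1
  have f1 := adj_eq h1
  have f2 := adj_eq h2
  have f3 := adj_eq h3
  have f4 := adj_eq h4
  simp only at f1 f2 f3 f4
  have g1 : ((j : ℕ) : ZMod P) ≠ ((i2 : ℕ) : ZMod P) :=
    cast_ne (by have := j.2; omega) (by have := i2.2; omega) (fun hh => hij (Fin.ext hh).symm)
  have g2 : ((kap j : ℕ) : ZMod P) ≠ ((kap i2 : ℕ) : ZMod P) := by
    have hb : ∀ i : Fin 3, kap i < P := by
      intro i
      unfold kap
      split_ifs <;> omega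
    refine cast_ne (hb j) (hb i2) ?_
    revert hij
    fin_cases j <;> fin_cases i2 <;> simp [kap]
  have g3 : (((i2 : ℕ) + (j : ℕ) : ℕ) : ZMod P) ≠ 0 := by
    have h6 : ((i2 : ℕ) + (j : ℕ)) ≠ 0 := by
      intro hh
      apply hij
      apply Fin.ext
      omega
    have h7 := cast_ne (P := P) (a := (i2 : ℕ) + (j : ℕ)) (b := 0) (by have := j.2; have := i2.2; omega)
      (by omega) h6
    simpa using h7
  have g1' : (((j : ℕ) : ZMod P) - ((i2 : ℕ) : ZMod P)) ^ 2 ≠ 0 := pow_ne_zero 2 (sub_ne_zero.2 g1)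
  have key : (((kap j : ℕ) : ZMod P) - ((kap i2 : ℕ) : ZMod P)) * ((((i2 : ℕ) + (j : ℕ) : ℕ) : ZMod P) *
      ((a - a') * (c - c'))) = 0 := by
    push_cast
    linear_combination f2 - f1 + f3 - f4
  rcases mul_eq_zero.1 key with h6 | h6
  · exact absurd (sub_eq_zero.1 h6) g2
  rcases mul_eq_zero.1 h6 with h6 | h6
  · exact absurd h6 g3
  rcases mul_eq_zero.1 h6 with h6 | h6
  · have e1 : a = a' := sub_eq_zero.1 h6
    subst e1
    have e2 : (((j : ℕ) : ZMod P) - ((i2 : ℕ) : ZMod P)) ^ 2 * (b - b') = 0 := by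
      linear_combination f3 - f1
    rcases mul_eq_zero.1 e2 with h7 | h7
    · exact absurd h7 g1'
    · rw [sub_eq_zero.1 h7]
  · have e1 : c = c' := sub_eq_zero.1 h6
    subst e1
    have e2 : (((j : ℕ) : ZMod P) - ((i2 : ℕ) : ZMod P)) ^ 2 * (d - d') = 0 := by
      linear_combination f1 - f2
    rcases mul_eq_zero.1 e2 with h7 | h7
    · exact absurd h7 g1'
    · exact absurd (by rw [sub_eq_zero.1 h7]) hy

end Pool.Agent.H84.RG
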