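import Mathlib
import Pool.Agent.H71.DN.Defs
import Pool.Agent.H84.RG.Tri

/-!
Small sets span few edges of `H P k`: `ee H S S ≤ 6 √#S #S`.
-/

set_option autoImplicit false

namespace Pool.Agent.H84.RG

open Finset Classical
open Pool.Agent.H71.DN

variable {P k : ℕ}

theorem ee_sum {V : Type} [Fintype V] (G : SimpleGraph V) (A B : Finset V) :
    ee G A B = ∑ a ∈ A, (B.filter fun b => G.Adj a b).card := by
  unfold ee
  rw [card_filter, sum_product]
  exact sum_congr rfl fun a _ => (card_filter _ _).symm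

theorem cnt [Fact P.Prime] (h5 : 5 ≤ P) (S : Finset (I P)) :
    (ee (H P k) S S : ℝ) ≤ 6 * Real.sqrt S.card * S.card := by
  -- the degrees into `S` and into the layers of `S`
  obtain ⟨d, hd⟩ : ∃ d : I P → ℕ, ∀ x, d x = (S.filter fun y => (H P k).Adj x y).card := ⟨_, fun _ => rfl⟩
  obtain ⟨dl, hdl⟩ : ∃ dl : Fin 3 → I P → ℕ, ∀ j x, dl j x =
    (S.filter fun y => (H P k).Adj x y ∧ y.1 = j).card := ⟨_, fun _ _ => rfl⟩
  have he : ee (H P k) S S = ∑ x ∈ S, d x := by
    rw [ee_sum]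
    exact sum_congr rfl fun x _ => (hd x).symm
  have hsum : ∀ x, d x = ∑ j : Fin 3, dl j x := by
    intro x
    rw [hd, card_eq_sum_card_fiberwise (f := fun y : I P => y.1) (t := univ) (fun _ _ => mem_coe.2 (mem_univ _))]
    refine sum_congr rfl fun j _ => ?_
    rw [hdl, filter_filter]
  -- W
  have hW : ∑ x ∈ S, ∑ j : Fin 3, dl j x ^ 2 ≤ ee (H P k) S S + 3 * S.card ^ 2 := by
    have e1 : ∀ x, ∀ j : Fin 3, dl j x ^ 2 =
        ((S ×ˢ S).filter fun z => z.1.1 = j ∧ z.2.1 = j ∧ (H P k).Adj x z.1 ∧ (H P k).Adj x z.2).card := by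
      intro x j
      rw [sq, hdl, ← card_product]
      congr 1
      ext z
      simp only [mem_product, mem_filter]
      tauto
    have e2 : ∀ x, ∑ j : Fin 3, dl j x ^ 2 =
        ((S ×ˢ S).filter fun z => z.1.1 = z.2.1 ∧ (H P k).Adj x z.1 ∧ (H P k).Adj x z.2).card := by
      intro x
      rw [card_eq_sum_card_fiberwise (f := fun z : I P × I P => z.1.1) (t := univ)
        (fun _ _ => mem_coe.2 (mem_univ _))]
      refine sum_congr rfl fun j _ => ?_
      rw [e1, filter_filter]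
      refine congrArg card (filter_congr fun z _ => ?_)
      constructor
      · rintro ⟨h1, h2, h3, h4⟩
        exact ⟨⟨h1.trans h2.symm, h3, h4⟩, h1⟩
      · rintro ⟨⟨h1, h3, h4⟩, h2⟩
        exact ⟨h2, h1 ▸ h2, h3, h4⟩
    have e3 : ∑ x ∈ S, ∑ j : Fin 3, dl j x ^ 2 = ∑ z ∈ S ×ˢ S,
        if z.1.1 = z.2.1 then (S.filter fun x => (H P k).Adj x z.1 ∧ (H P k).Adj x z.2).card else 0 := by
      rw [sum_congr rfl fun x _ => e2 x]
      simp only [card_filter]
      rw [sum_comm]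
      refine sum_congr rfl fun z _ => ?_
      by_cases hz : z.1.1 = z.2.1
      · simp [hz]
      · simp [hz]
    rw [e3]
    have e4 : ∀ z ∈ S ×ˢ S, (if z.1.1 = z.2.1 then (S.filter fun x => (H P k).Adj x z.1 ∧
        (H P k).Adj x z.2).card else 0) ≤ (if z.1 = z.2 then d z.1 else 0) + 3 := by
      intro z _
      by_cases h1 : z.1 = z.2
      · rw [if_pos (by rw [h1]), if_pos h1, ← h1, hd]
        refine le_trans (card_le_card ?_) (Nat.le_add_right _ _)
        intro x hx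
        rw [mem_filter] at hx ⊢
        exact ⟨hx.1, hx.2.1.symm⟩
      · rw [if_neg h1, zero_add]
        by_cases h2 : z.1.1 = z.2.1
        · rw [if_pos h2, card_eq_sum_card_fiberwise (f := fun y : I P => y.1) (t := univ)
            (fun _ _ => mem_coe.2 (mem_univ _))]
          calc ∑ i : Fin 3, ((S.filter fun x => (H P k).Adj x z.1 ∧ (H P k).Adj x z.2).filter
                fun x => x.1 = i).card ≤ ∑ _i : Fin 3, 1 := by
                refine sum_le_sum fun i _ => le_trans (card_le_card ?_) (c4 (P := P) (k := k) h5 i h2 h1)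
                intro x hx
                rw [mem_filter, mem_filter] at hx
                rw [mem_filter]
                exact ⟨mem_univ _, hx.2, hx.1.2.1, hx.1.2.2⟩
            _ = 3 := by simp
        · rw [if_neg h2]
          exact Nat.zero_le _
    refine (sum_le_sum e4).trans ?_
    rw [sum_add_distrib, sum_const, card_product, smul_eq_mul, he]
    have e5 : ∑ z ∈ S ×ˢ S, (if z.1 = z.2 then d z.1 else 0) = ∑ x ∈ S, d x := by
      rw [sum_product]
      refine sum_congr rfl fun x hx => ?_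
      rw [sum_ite_eq S x (fun _ => d x), if_pos hx]
    rw [e5]
    nlinarith
  -- Cauchy-Schwarz twice
  have hC1 : ∀ x, (d x : ℝ) ^ 2 ≤ 3 * ∑ j : Fin 3, (dl j x : ℝ) ^ 2 := by
    intro x
    have h1 := sq_sum_le_card_mul_sum_sq (s := (univ : Finset (Fin 3))) (f := fun j => (dl j x : ℝ))
    rw [hsum x]
    push_cast
    simpa using h1
  have hC2 : (∑ x ∈ S, (d x : ℝ)) ^ 2 ≤ S.card * ∑ x ∈ S, (d x : ℝ) ^ 2 :=
    sq_sum_le_card_mul_sum_sq
  have hWr : ∑ x ∈ S, ∑ j : Fin 3, (dl j x : ℝ) ^ 2 ≤ (ee (H P k) S S : ℝ) + 3 * (S.card : ℝ) ^ 2 := by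
    exact_mod_cast hW
  have her : (ee (H P k) S S : ℝ) = ∑ x ∈ S, (d x : ℝ) := by
    rw [he]; push_cast; rfl
  obtain ⟨e, hee⟩ : ∃ e : ℝ, e = (ee (H P k) S S : ℝ) := ⟨_, rfl⟩
  rw [← hee] at hWr her ⊢
  rw [← her] at hC2
  have hs0 : (0 : ℝ) ≤ S.card := Nat.cast_nonneg _
  have hmain : e ^ 2 ≤ S.card * (3 * (e + 3 * (S.card : ℝ) ^ 2)) := by
    refine hC2.trans (mul_le_mul_of_nonneg_left ?_ hs0)
    calc ∑ x ∈ S, (d x : ℝ) ^ 2 ≤ ∑ x ∈ S, 3 * ∑ j : Fin 3, (dl j x : ℝ) ^ 2 := sum_le_sum fun x _ => hC1 x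
      _ = 3 * ∑ x ∈ S, ∑ j : Fin 3, (dl j x : ℝ) ^ 2 := (mul_sum _ _ _).symm
      _ ≤ 3 * (e + 3 * (S.card : ℝ) ^ 2) := by linarith
  have he0 : 0 ≤ e := by rw [hee]; exact Nat.cast_nonneg _
  by_contra hcon
  push Not at hcon
  rcases Nat.eq_zero_or_pos S.card with h0 | h0
  · rw [h0] at hmain hcon
    norm_num at hmain hcon
    have : e ^ 2 > 0 := by positivity
    linarith
  · obtain ⟨r, hr⟩ : ∃ r, r = Real.sqrt S.card := ⟨_, rfl⟩
    have hr2 : r * r = S.card := by rw [hr]; exact Real.mul_self_sqrt hs0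
    have h1 : (1 : ℝ) ≤ S.card := by exact_mod_cast h0
    have hr1 : 1 ≤ r := by
      rw [hr]
      exact Real.one_le_sqrt.2 h1
    rw [← hr, ← hr2] at hcon
    rw [← hr2] at hmain
    have a1 : 6 * r * (r * r) * e ≤ e * e := mul_le_mul_of_nonneg_right hcon.le he0
    have hr3 : 0 < 6 * r * (r * r) := by positivity
    have a2 : (6 * r * (r * r)) * (6 * r * (r * r)) < e * e := by nlinarith
    have a3 : r * r * e ≤ r * (r * r) * e := by
      refine mul_le_mul_of_nonneg_right ?_ he0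
      nlinarith [mul_pos (by linarith : (0 : ℝ) < r) (by linarith : (0 : ℝ) < r)]
    nlinarith

end Pool.Agent.H84.RG
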