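import Mathlib
import Pool.Agent.H71.DN.Defs
import Pool.Agent.H84.RG.Tri
import Pool.Agent.H84.RG.Cnt

/-!
Regularisation: every graph of maximum degree at most `Δ` is an induced slice of a graph with all degrees
`Δ` or `Δ - 1`, of order at most `12 Δ ^ 2 n`, that inherits the sparsity of small sets and of bipartite
subgraphs.
-/

set_option autoImplicit false

namespace Pool.Agent.H84.RG

open Finset Classical
open Pool.Agent.H71.DN

/-- The regularisation. -/
def RG {V : Type} (G : SimpleGraph V) (P : ℕ) (q : V → ℕ) : SimpleGraph (V × I P) where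
  Adj x y := (x.2 = y.2 ∧ G.Adj x.1 y.1) ∨ (x.1 = y.1 ∧ (H P (q x.1 / 2)).Adj x.2 y.2)
  symm := ⟨fun x y h => by
    rcases h with h | h
    · exact Or.inl ⟨h.1.symm, h.2.symm⟩
    · exact Or.inr ⟨h.1.symm, by rw [← h.1]; exact h.2.symm⟩⟩
  loopless := ⟨fun x h => by
    rcases h with h | h
    · exact G.loopless.irrefl _ h.2
    · exact (H P (q x.1 / 2)).loopless.irrefl _ h.2⟩

variable {V : Type} [Fintype V] (G : SimpleGraph V) (P : ℕ) (q : V → ℕ)

theorem dgRG [Fact P.Prime] (x : V × I P) :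
    dg (RG G P q) x = dg G x.1 + dg (H P (q x.1 / 2)) x.2 := by
  unfold dg
  have h : (univ.filter fun y => (RG G P q).Adj x y) =
      ((univ.filter fun u => G.Adj x.1 u).image fun u => (u, x.2)) ∪
        ((univ.filter fun i => (H P (q x.1 / 2)).Adj x.2 i).image fun i => (x.1, i)) := by
    ext ⟨u, i⟩
    simp only [mem_filter, mem_univ, true_and, mem_union, mem_image, RG]
    constructor
    · rintro (h | h)
      · exact Or.inl ⟨u, h.2, by rw [h.1]⟩
      · exact Or.inr ⟨i, h.2, by rw [h.1]⟩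
    · rintro (⟨u', h1, h2⟩ | ⟨i', h1, h2⟩)
      · rw [Prod.mk.injEq] at h2
        exact Or.inl ⟨h2.2, h2.1 ▸ h1⟩
      · rw [Prod.mk.injEq] at h2
        exact Or.inr ⟨h2.1, h2.2 ▸ h1⟩
  rw [h, card_union_of_disjoint, card_image_of_injective, card_image_of_injective]
  · intro a b hab
    exact (Prod.mk.injEq _ _ _ _ ▸ hab).2
  · intro a b hab
    exact (Prod.mk.injEq _ _ _ _ ▸ hab).1
  · rw [disjoint_left]
    intro z hz hz'
    obtain ⟨u, hu, rfl⟩ := mem_image.1 hz
    obtain ⟨i, hi, h2⟩ := mem_image.1 hz'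
    rw [Prod.mk.injEq] at h2
    rw [mem_filter] at hu hi
    rw [h2.1] at hu
    exact G.loopless.irrefl _ (h2.1 ▸ hu.2)

/-- slices -/
noncomputable def sl {V : Type} [Fintype V] {P : ℕ} (A : Finset (V × I P)) (i : I P) : Finset V :=
  univ.filter fun v => (v, i) ∈ A

/-- fibres -/
noncomputable def fb {V : Type} {P : ℕ} [NeZero P] (A : Finset (V × I P)) (v : V) : Finset (I P) :=
  univ.filter fun i => (v, i) ∈ A

theorem sum_sl {P : ℕ} [NeZero P] (A : Finset (V × I P)) (f : V → ℝ) :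
    ∑ i, ∑ v ∈ sl A i, f v = ∑ x ∈ A, f x.1 := by
  have h1 : ∑ x ∈ A, f x.1 = ∑ x : V × I P, (if x ∈ A then f x.1 else (0 : ℝ)) := by
    rw [← sum_filter]
    exact sum_congr (by ext; simp) fun _ _ => rfl
  rw [h1]
  refine Eq.trans ?_ (Fintype.sum_prod_type_right (f := fun x : V × I P =>
    (if x ∈ A then f x.1 else (0 : ℝ)))).symm
  refine sum_congr rfl fun i _ => ?_
  unfold sl
  rw [sum_filter]

theorem card_sl {P : ℕ} [NeZero P] (A : Finset (V × I P)) : ∑ i, ((sl A i).card : ℝ) = A.card := by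
  have h := sum_sl A (fun _ => 1)
  simpa using h

theorem sum_fb {P : ℕ} [NeZero P] (A : Finset (V × I P)) (f : V → ℝ) :
    ∑ v, f v * ((fb A v).card : ℝ) = ∑ x ∈ A, f x.1 := by
  have h1 : ∑ x ∈ A, f x.1 = ∑ x : V × I P, (if x ∈ A then f x.1 else (0 : ℝ)) := by
    rw [← sum_filter]
    exact sum_congr (by ext; simp) fun _ _ => rfl
  rw [h1, Fintype.sum_prod_type]
  refine sum_congr rfl fun v _ => ?_
  unfold fb
  rw [card_filter]
  push_cast
  rw [mul_sum]
  refine sum_congr rfl fun i _ => ?_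
  split_ifs <;> simp

theorem eeRG [Fact P.Prime] (A B : Finset (V × I P)) :
    (ee (RG G P q) A B : ℝ) = ∑ i, (ee G (sl A i) (sl B i) : ℝ) +
      ∑ v, (ee (H P (q v / 2)) (fb A v) (fb B v) : ℝ) := by
  have h1 : (ee (RG G P q) A B : ℝ) = ∑ x : V × I P, ∑ y : V × I P,
      if x ∈ A ∧ y ∈ B ∧ (RG G P q).Adj x y then (1 : ℝ) else 0 := by
    unfold ee
    rw [card_filter]
    push_cast
    rw [sum_product]
    have e1 : ∀ f : V × I P → ℝ, ∀ C : Finset (V × I P), ∑ x ∈ C, f x = ∑ x, if x ∈ C then f x else 0 := by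
      intro f C
      rw [← sum_filter]
      exact sum_congr (by ext; simp) fun _ _ => rfl
    rw [e1]
    refine sum_congr rfl fun x _ => ?_
    by_cases hx : x ∈ A
    · rw [if_pos hx, e1]
      refine sum_congr rfl fun y _ => ?_
      by_cases hy : y ∈ B <;> simp [hx, hy]
    · rw [if_neg hx]
      simp [hx]
  have h2 : ∀ x y : V × I P, (if x ∈ A ∧ y ∈ B ∧ (RG G P q).Adj x y then (1 : ℝ) else 0) =
      (if x.2 = y.2 then (if x ∈ A ∧ y ∈ B ∧ G.Adj x.1 y.1 then (1 : ℝ) else 0) else 0) +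
      (if x.1 = y.1 then (if x ∈ A ∧ y ∈ B ∧ (H P (q x.1 / 2)).Adj x.2 y.2 then (1 : ℝ) else 0) else 0) := by
    rintro ⟨u, i⟩ ⟨w, j⟩
    simp only [RG]
    by_cases hij : i = j
    · subst hij
      by_cases huw : u = w
      · subst huw
        simp
      · simp [huw]
    · by_cases huw : u = w
      · subst huw
        simp [hij]
      · simp [huw, hij]
  rw [h1, sum_congr rfl fun x _ => sum_congr rfl fun y _ => h2 x y]
  simp only [sum_add_distrib]
  congr 1
  · -- slices
    have e3 : ∀ i : I P, (ee G (sl A i) (sl B i) : ℝ) = ∑ u : V, ∑ w : V,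
        if (u, i) ∈ A ∧ (w, i) ∈ B ∧ G.Adj u w then (1 : ℝ) else 0 := by
      intro i
      unfold ee sl
      rw [card_filter]
      push_cast
      rw [sum_product, sum_filter]
      refine sum_congr rfl fun u _ => ?_
      by_cases hu : (u, i) ∈ A
      · rw [if_pos hu, sum_filter]
        refine sum_congr rfl fun w _ => ?_
        by_cases hw : (w, i) ∈ B <;> simp [hu, hw]
      · rw [if_neg hu]
        simp [hu]
    rw [sum_congr rfl fun i _ => e3 i, Fintype.sum_prod_type_right]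
    refine sum_congr rfl fun i _ => sum_congr rfl fun u _ => ?_
    rw [Fintype.sum_prod_type]
    refine sum_congr rfl fun w _ => ?_
    rw [sum_eq_single i]
    · simp
    · intro j _ hj
      simp only
      rw [if_neg (fun h => hj h.symm)]
    · intro h
      exact absurd (mem_univ _) h
  · have e3 : ∀ v : V, (ee (H P (q v / 2)) (fb A v) (fb B v) : ℝ) = ∑ i : I P, ∑ j : I P,
        if (v, i) ∈ A ∧ (v, j) ∈ B ∧ (H P (q v / 2)).Adj i j then (1 : ℝ) else 0 := by
      intro v
      unfold ee fb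
      rw [card_filter]
      push_cast
      rw [sum_product, sum_filter]
      refine sum_congr rfl fun i _ => ?_
      by_cases hu : (v, i) ∈ A
      · rw [if_pos hu, sum_filter]
        refine sum_congr rfl fun w _ => ?_
        by_cases hw : (v, w) ∈ B <;> simp [hu, hw]
      · rw [if_neg hu]
        simp [hu]
    rw [sum_congr rfl fun i _ => e3 i, Fintype.sum_prod_type]
    refine sum_congr rfl fun v _ => sum_congr rfl fun i _ => ?_
    rw [Fintype.sum_prod_type_right]
    refine sum_congr rfl fun j _ => ?_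
    rw [sum_eq_single v]
    · simp
    · intro w _ hw
      simp only
      rw [if_neg (fun h => hw h.symm)]
    · intro h
      exact absurd (mem_univ _) h

theorem ee_dg (A B : Finset V) : (ee G A B : ℝ) ≤ ∑ v ∈ A, (dg G v : ℝ) := by
  have h : ee G A B ≤ ∑ v ∈ A, dg G v := by
    rw [ee_sum]
    refine sum_le_sum fun v _ => card_le_card fun u hu => ?_
    rw [mem_filter] at hu ⊢
    exact ⟨mem_univ _, hu.2⟩
  exact_mod_cast h

theorem ee_compl {W : Type} [Fintype W] (G : SimpleGraph W) (S : Finset W) :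
    (ee G S (univ \ S) : ℝ) + ee G S S = ∑ x ∈ S, (dg G x : ℝ) := by
  have h : ee G S (univ \ S) + ee G S S = ∑ x ∈ S, dg G x := by
    rw [ee_sum, ee_sum, ← sum_add_distrib]
    refine sum_congr rfl fun x _ => ?_
    unfold dg
    rw [← card_union_of_disjoint]
    · congr 1
      ext y
      simp only [mem_union, mem_filter, mem_sdiff, mem_univ, true_and]
      by_cases hy : y ∈ S <;> simp [hy]
    · rw [disjoint_left]
      intro y hy hy'
      exact (mem_sdiff.1 (mem_filter.1 hy).1).2 (mem_filter.1 hy').1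
  exact_mod_cast h

theorem ee_comm (A B : Finset V) : ee G A B = ee G B A := by
  unfold ee
  refine card_bij (fun x _ => (x.2, x.1)) ?_ ?_ ?_
  · intro x hx
    rw [mem_filter, mem_product] at hx ⊢
    exact ⟨⟨hx.1.2, hx.1.1⟩, hx.2.symm⟩
  · intro x _ y _ h
    rw [Prod.mk.injEq] at h
    exact Prod.ext h.2 h.1
  · intro x hx
    rw [mem_filter, mem_product] at hx
    exact ⟨(x.2, x.1), by rw [mem_filter, mem_product]; exact ⟨⟨hx.1.2, hx.1.1⟩, hx.2.symm⟩, rfl⟩

theorem reg (Δ s0 : ℕ) (δ : ℝ) (h5 : 5 ≤ Δ) (hδ : 2 + 12 * Real.sqrt s0 ≤ δ)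
    (up : ∀ v, dg G v ≤ Δ)
    (ex : ∀ S : Finset V, S.card ≤ s0 → (ee G S S : ℝ) ≤ (Δ - δ) * S.card)
    (nb : ∀ A B : Finset V, Disjoint A B → 2 * (ee G A B : ℝ) ≤ (Δ - δ) * (A.card + B.card)) :
    ∃ (W : Type) (_ : Fintype W) (G' : SimpleGraph W) (f : V → W), Function.Injective f ∧
      (∀ u v, G.Adj u v → G'.Adj (f u) (f v)) ∧
      Fintype.card W ≤ 12 * Δ ^ 2 * Fintype.card V ∧ (∀ v, dg G' v ≤ Δ) ∧ (∀ v, Δ ≤ dg G' v + 1) ∧
      (∀ S : Finset W, S.card ≤ s0 → δ / 2 * S.card ≤ ee G' S (univ \ S)) ∧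
      ∀ A B : Finset W, Disjoint A B → 2 * (ee G' A B : ℝ) ≤ (Δ - δ / 3) * (A.card + B.card) := by
  obtain ⟨P, hP, hP1, hP2⟩ := Nat.exists_prime_lt_and_le_two_mul Δ (by omega)
  have : Fact P.Prime := ⟨hP⟩
  have hP5 : 5 ≤ P := by omega
  obtain ⟨q, hq⟩ : ∃ q : V → ℕ, ∀ v, q v = Δ - dg G v := ⟨_, fun _ => rfl⟩
  have hk : ∀ v, q v / 2 ≤ P := by
    intro v
    rw [hq]
    omega
  have hdeg : ∀ x : V × I P, dg (RG G P q) x = dg G x.1 + 2 * (q x.1 / 2) := by
    intro x
    rw [dgRG, dgH hP5 (hk _)]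
  have hqr : ∀ v, (q v : ℝ) = Δ - dg G v := by
    intro v
    rw [hq, Nat.cast_sub (up v)]
  have hup : ∀ x, dg (RG G P q) x ≤ Δ := by
    intro x
    rw [hdeg]
    have := up x.1
    have := hq x.1
    omega
  have hlo : ∀ x, Δ ≤ dg (RG G P q) x + 1 := by
    intro x
    rw [hdeg]
    have := up x.1
    have := hq x.1
    omega
  refine ⟨V × I P, inferInstance, RG G P q, fun v => (v, ((0 : Fin 3), (0 : ZMod P), (0 : ZMod P))),
    fun a b h => (Prod.mk.injEq _ _ _ _ ▸ h).1, fun u v h => Or.inl ⟨rfl, h⟩, ?_, hup, hlo, ?_, ?_⟩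
  · have e1 : Fintype.card (V × I P) = Fintype.card V * (3 * (P * P)) := by
      simp [Fintype.card_prod, ZMod.card]
    rw [e1]
    have : P * P ≤ (2 * Δ) * (2 * Δ) := Nat.mul_le_mul hP2 hP2
    nlinarith [Nat.zero_le (Fintype.card V), Nat.mul_le_mul_left (Fintype.card V) this]
  · intro S hS
    have hs0 : (0 : ℝ) ≤ S.card := Nat.cast_nonneg _
    -- internal edges
    have e1 : (ee (RG G P q) S S : ℝ) ≤ (Δ - δ) * S.card + 6 * Real.sqrt s0 * S.card := by
      rw [eeRG]
      refine add_le_add ?_ ?_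
      · calc ∑ i, (ee G (sl S i) (sl S i) : ℝ) ≤ ∑ i, (Δ - δ) * ((sl S i).card : ℝ) := by
              refine sum_le_sum fun i _ => ex _ (le_trans ?_ hS)
              refine card_le_card_of_injOn (fun v => (v, i)) ?_ ?_
              · intro v hv
                exact mem_coe.2 (mem_filter.1 (mem_coe.1 hv)).2
              · intro a _ b _ hab
                exact (Prod.mk.injEq _ _ _ _ ▸ hab).1
          _ = (Δ - δ) * S.card := by rw [← mul_sum, card_sl]
      · calc ∑ v, (ee (H P (q v / 2)) (fb S v) (fb S v) : ℝ) ≤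
            ∑ v, 6 * Real.sqrt s0 * ((fb S v).card : ℝ) := by
              refine sum_le_sum fun v _ => (cnt hP5 _).trans ?_
              refine mul_le_mul_of_nonneg_right ?_ (Nat.cast_nonneg _)
              refine mul_le_mul_of_nonneg_left (Real.sqrt_le_sqrt ?_) (by norm_num)
              have : (fb S v).card ≤ S.card := by
                refine card_le_card_of_injOn (fun i => (v, i)) ?_ ?_
                · intro i hi
                  exact mem_coe.2 (mem_filter.1 (mem_coe.1 hi)).2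
                · intro a _ b _ hab
                  exact (Prod.mk.injEq _ _ _ _ ▸ hab).2
              exact_mod_cast this.trans hS
          _ = 6 * Real.sqrt s0 * S.card := sum_fb S (fun _ => 6 * Real.sqrt s0) |>.trans (by
            rw [sum_const, nsmul_eq_mul, mul_comm])
    have e2 := ee_compl (RG G P q) S
    have e3 : ((Δ : ℝ) - 1) * S.card ≤ ∑ x ∈ S, (dg (RG G P q) x : ℝ) := by
      have h1 : ∑ x ∈ S, ((Δ : ℝ) - 1) ≤ ∑ x ∈ S, (dg (RG G P q) x : ℝ) := by
        refine sum_le_sum fun x _ => ?_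
        have : (Δ : ℝ) ≤ dg (RG G P q) x + 1 := by exact_mod_cast hlo x
        linarith
      rw [sum_const, nsmul_eq_mul] at h1
      linarith
    have e4 : 0 ≤ (δ - 2 - 12 * Real.sqrt s0) * S.card := mul_nonneg (by linarith) hs0
    linarith
  · intro A B hAB
    obtain ⟨s, hs⟩ : ∃ s : ℝ, s = A.card + B.card := ⟨_, rfl⟩
    obtain ⟨Q, hQ⟩ : ∃ Q : ℝ, Q = ∑ x ∈ A, (q x.1 : ℝ) + ∑ x ∈ B, (q x.1 : ℝ) := ⟨_, rfl⟩
    obtain ⟨X, hX⟩ : ∃ X : ℝ, X = 2 * ∑ i, (ee G (sl A i) (sl B i) : ℝ) := ⟨_, rfl⟩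
    obtain ⟨Y, hY⟩ : ∃ Y : ℝ, Y = 2 * ∑ v, (ee (H P (q v / 2)) (fb A v) (fb B v) : ℝ) := ⟨_, rfl⟩
    have hdisj : ∀ i, Disjoint (sl A i) (sl B i) := by
      intro i
      rw [disjoint_left]
      intro v h1 h2
      exact (disjoint_left.1 hAB) (mem_filter.1 h1).2 (mem_filter.1 h2).2
    have hdisj2 : ∀ v, Disjoint (fb A v) (fb B v) := by
      intro i
      rw [disjoint_left]
      intro v h1 h2
      exact (disjoint_left.1 hAB) (mem_filter.1 h1).2 (mem_filter.1 h2).2
    have b1 : X ≤ (Δ - δ) * s := by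
      rw [hX, hs, mul_sum]
      calc ∑ i, 2 * (ee G (sl A i) (sl B i) : ℝ) ≤ ∑ i, (Δ - δ) * (((sl A i).card : ℝ) + (sl B i).card) :=
            sum_le_sum fun i _ => nb _ _ (hdisj i)
        _ = _ := by rw [← mul_sum, sum_add_distrib, card_sl, card_sl]
    have b2 : X ≤ Δ * s - Q := by
      rw [hX, mul_sum]
      have e1 : ∀ C : Finset (V × I P), ∑ i, ∑ v ∈ sl C i, (dg G v : ℝ) = Δ * C.card - ∑ x ∈ C, (q x.1 : ℝ) := by
        intro C
        rw [sum_sl C (fun v => (dg G v : ℝ))]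
        have : ∀ x ∈ C, (dg G x.1 : ℝ) = Δ - q x.1 := fun x _ => by rw [hqr]; ring
        rw [sum_congr rfl this, sum_sub_distrib, sum_const, nsmul_eq_mul]
        ring
      calc ∑ i, 2 * (ee G (sl A i) (sl B i) : ℝ) ≤ ∑ i, (∑ v ∈ sl A i, (dg G v : ℝ) + ∑ v ∈ sl B i, (dg G v : ℝ)) := by
            refine sum_le_sum fun i _ => ?_
            have c1 := ee_dg G (sl A i) (sl B i)
            have c2 := ee_dg G (sl B i) (sl A i)
            rw [ee_comm G (sl B i) (sl A i)] at c2
            linarith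
        _ = Δ * s - Q := by
          rw [sum_add_distrib, e1, e1, hs, hQ]
          ring
    have b3 : Y ≤ 2 / 3 * Q := by
      have e1 : ∀ v, 2 * (ee (H P (q v / 2)) (fb A v) (fb B v) : ℝ) ≤
          2 / 3 * ((q v : ℝ) * (fb A v).card + (q v : ℝ) * (fb B v).card) := by
        intro v
        have h1 := hb (P := P) (k := q v / 2) (fb A v) (fb B v) (hdisj2 v)
        have h2 : 3 * (ee (H P (q v / 2)) (fb A v) (fb B v) : ℝ) ≤
            2 * (((q v / 2 : ℕ) : ℝ) * ((fb A v).card + (fb B v).card)) := by exact_mod_cast h1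
        have h3 : 2 * ((q v / 2 : ℕ) : ℝ) ≤ q v := by
          have : 2 * (q v / 2) ≤ q v := Nat.mul_div_le _ _
          exact_mod_cast this
        have h4 : (0 : ℝ) ≤ (fb A v).card + (fb B v).card := by positivity
        nlinarith [mul_le_mul_of_nonneg_right h3 h4]
      rw [hY, mul_sum, hQ]
      refine (sum_le_sum fun v _ => e1 v).trans ?_
      rw [← mul_sum, sum_add_distrib, sum_fb A (fun v => (q v : ℝ)), sum_fb B (fun v => (q v : ℝ))]
    rw [eeRG, mul_add, ← hX, ← hY, ← hs]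
    linarith

end Pool.Agent.H84.RG
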